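import Pool.Agent.Helper23.MV.StH

/-!
# Project MV, module LCT: error sums
-/

set_option autoImplicit false

namespace Pool.Agent.Helper4.MV

open Pool.Agent.Helper23.MV
open Finset

/-- moments of the divisor function -/
private noncomputable def T_LCT (k N : ℕ) : ℝ := ∑ m ∈ Icc 1 N, (m.divisors.card : ℝ) ^ k / m

private theorem T_nonneg_LCT (k N : ℕ) : 0 ≤ T_LCT k N :=
  Finset.sum_nonneg fun m _ => by positivity

open scoped Pointwise in
private theorem tau_mul_LCT (a b : ℕ) : ((a * b).divisors.card : ℝ) ≤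
    a.divisors.card * b.divisors.card := by
  rw [Nat.divisors_mul]
  exact_mod_cast Finset.card_mul_le

private theorem T_succ_LCT (k N : ℕ) : T_LCT (k + 1) N ≤ T_LCT k N ^ 2 := by
  have h1 : T_LCT k N ^ 2 = ∑ p ∈ Icc 1 N ×ˢ Icc 1 N,
      ((p.1.divisors.card : ℝ) ^ k / p.1) * ((p.2.divisors.card : ℝ) ^ k / p.2) := by
    unfold T_LCT
    rw [sq, Finset.sum_mul_sum, ← Finset.sum_product']
  have h2 : ∑ p ∈ (Icc 1 N ×ˢ Icc 1 N).filter (fun p => p.1 * p.2 ≤ N),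
      ((p.1.divisors.card : ℝ) ^ k / p.1) * ((p.2.divisors.card : ℝ) ^ k / p.2) ≤
      T_LCT k N ^ 2 := by
    rw [h1]
    exact Finset.sum_le_sum_of_subset_of_nonneg (Finset.filter_subset _ _)
      (fun p _ _ => by positivity)
  refine le_trans ?_ h2
  rw [← Finset.sum_fiberwise_of_maps_to (t := Icc 1 N) (g := fun p : ℕ × ℕ => p.1 * p.2)]
  · unfold T_LCT
    refine Finset.sum_le_sum fun m hm => ?_
    rw [Finset.mem_Icc] at hm
    have h3 : ((Icc 1 N ×ˢ Icc 1 N).filter (fun p => p.1 * p.2 ≤ N)).filter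
        (fun p => p.1 * p.2 = m) = m.divisorsAntidiagonal := by
      ext p
      simp only [Finset.mem_filter, Finset.mem_product, Finset.mem_Icc,
        Nat.mem_divisorsAntidiagonal]
      constructor
      · rintro ⟨⟨_, _⟩, h⟩
        exact ⟨h, by omega⟩
      · rintro ⟨h, _⟩
        have hp1 : 1 ≤ p.1 := Nat.one_le_iff_ne_zero.2 fun h0 => by
          rw [h0, zero_mul] at h; omega
        have hp2 : 1 ≤ p.2 := Nat.one_le_iff_ne_zero.2 fun h0 => by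
          rw [h0, mul_zero] at h; omega
        have hp3 : p.1 ≤ m := by rw [← h]; exact Nat.le_mul_of_pos_right _ hp2
        have hp4 : p.2 ≤ m := by rw [← h]; exact Nat.le_mul_of_pos_left _ hp1
        refine ⟨⟨⟨⟨hp1, by omega⟩, ⟨hp2, by omega⟩⟩, by omega⟩, h⟩
    rw [h3]
    have h4 : (m.divisors.card : ℝ) ^ (k + 1) / m =
        ∑ p ∈ m.divisorsAntidiagonal, (m.divisors.card : ℝ) ^ k / (m : ℝ) := by
      rw [Nat.sum_divisorsAntidiagonal (fun _ _ => (m.divisors.card : ℝ) ^ k / (m : ℝ)),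
        Finset.sum_const, nsmul_eq_mul]
      ring
    rw [h4]
    refine Finset.sum_le_sum fun p hp => ?_
    rw [Nat.mem_divisorsAntidiagonal] at hp
    rw [← hp.1, div_mul_div_comm, ← mul_pow, Nat.cast_mul]
    gcongr
    exact tau_mul_LCT _ _
  · intro p hp
    rw [Finset.mem_filter, Finset.mem_product, Finset.mem_Icc, Finset.mem_Icc] at hp
    rw [Finset.mem_Icc]
    exact ⟨Nat.mul_pos hp.1.1.1 hp.1.2.1, hp.2⟩

private theorem T_zero_LCT (N : ℕ) : T_LCT 0 N ≤ 1 + Real.log N := by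
  have h := harmonic_le_one_add_log N
  rw [harmonic_eq_sum_Icc] at h
  refine le_trans (le_of_eq ?_) h
  unfold T_LCT
  push_cast
  exact Finset.sum_congr rfl fun m _ => by rw [pow_zero, one_div]

private theorem T_four_LCT (N : ℕ) : T_LCT 4 N ≤ (1 + Real.log N) ^ 16 := by
  have h0 := T_zero_LCT N
  have h1 := T_succ_LCT 0 N
  have h2 := T_succ_LCT 1 N
  have h3 := T_succ_LCT 2 N
  have h4 := T_succ_LCT 3 N
  have n0 := T_nonneg_LCT 0 N
  have n1 := T_nonneg_LCT 1 N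
  have n2 := T_nonneg_LCT 2 N
  have n3 := T_nonneg_LCT 3 N
  calc T_LCT 4 N ≤ T_LCT 3 N ^ 2 := h4
    _ ≤ (T_LCT 2 N ^ 2) ^ 2 := by gcongr
    _ ≤ ((T_LCT 1 N ^ 2) ^ 2) ^ 2 := by gcongr
    _ ≤ (((T_LCT 0 N ^ 2) ^ 2) ^ 2) ^ 2 := by gcongr
    _ ≤ ((((1 + Real.log N) ^ 2) ^ 2) ^ 2) ^ 2 := by gcongr
    _ = (1 + Real.log N) ^ 16 := by ring

private theorem sqf_lcm_LCT {a b : ℕ} (ha : Squarefree a) (hb : Squarefree b) :
    Squarefree (Nat.lcm a b) := by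
  have ha0 := ha.ne_zero
  have hb0 := hb.ne_zero
  rw [Nat.squarefree_iff_factorization_le_one (Nat.lcm_ne_zero ha0 hb0)]
  rw [Nat.squarefree_iff_factorization_le_one ha0] at ha
  rw [Nat.squarefree_iff_factorization_le_one hb0] at hb
  intro p
  rw [Nat.factorization_lcm ha0 hb0, Finsupp.sup_apply]
  exact sup_le (ha p) (hb p)

theorem hLct : StHdi → StLct := by
  intro hH
  refine ⟨32, fun e δ σ z he hδ hz hσ => ?_⟩
  obtain ⟨Z, hZ⟩ : ∃ Z : ℕ, Z = ⌊z⌋₊ := ⟨_, rfl⟩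
  rw [← hZ]
  have hZ1 : 1 ≤ Z := by rw [hZ]; exact (Nat.one_le_floor_iff z).2 hz
  have hZz : (Z : ℝ) ≤ z := by rw [hZ]; exact Nat.floor_le (by linarith)
  obtain ⟨K, hK⟩ : ∃ K : ℝ, K = z ^ (4 * (1 - σ)) := ⟨_, rfl⟩
  have hK0 : 0 ≤ K := by rw [hK]; positivity
  -- the inner sum
  have inner : ∀ D : ℕ, Squarefree D → D ≤ Z ^ 2 →
      ∑ m ∈ Icc 1 (D ^ 2), |hd e δ D m| * (m : ℝ) ^ (-σ) ≤
        (D.divisors.card : ℝ) ^ 2 * (K / D) := by
    intro D hD hDZ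
    have hD0 : 0 < D := Nat.pos_of_ne_zero hD.ne_zero
    obtain ⟨-, h2, -⟩ := hH e δ he hδ D hD
    have h3 : ∀ m ∈ Icc 1 (D ^ 2), |hd e δ D m| * (m : ℝ) ^ (-σ) ≤ |hd e δ D m| * (K / D) := by
      intro m hm
      rw [Finset.mem_Icc] at hm
      by_cases h4 : D ∣ m ∧ m ∣ D ^ 2
      · refine mul_le_mul_of_nonneg_left ?_ (abs_nonneg _)
        have hm0 : (0 : ℝ) < m := by exact_mod_cast hm.1
        have h5 : (m : ℝ) ^ (-σ) = (m : ℝ) ^ (1 - σ) / m := by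
          rw [show -σ = (1 - σ) - 1 by ring, Real.rpow_sub_one hm0.ne']
        rw [h5]
        have h6 : (D : ℝ) ≤ m := by exact_mod_cast Nat.le_of_dvd (by omega) h4.1
        have h7 : (m : ℝ) ≤ z ^ (4 : ℕ) := by
          have h8 : (m : ℝ) ≤ ((D ^ 2 : ℕ) : ℝ) := by exact_mod_cast hm.2
          have h9 : (D : ℝ) ≤ z ^ 2 := by
            calc (D : ℝ) ≤ ((Z ^ 2 : ℕ) : ℝ) := by exact_mod_cast hDZ
              _ = (Z : ℝ) ^ 2 := by push_cast; ring
              _ ≤ z ^ 2 := by gcongr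
          calc (m : ℝ) ≤ ((D ^ 2 : ℕ) : ℝ) := h8
            _ = (D : ℝ) ^ 2 := by push_cast; ring
            _ ≤ (z ^ 2) ^ 2 := by gcongr
            _ = z ^ (4 : ℕ) := by ring
        have h10 : (m : ℝ) ^ (1 - σ) ≤ K := by
          calc (m : ℝ) ^ (1 - σ) ≤ (z ^ (4 : ℕ)) ^ (1 - σ) :=
                Real.rpow_le_rpow hm0.le h7 (by linarith)
            _ = K := by
                rw [hK, ← Real.rpow_natCast z 4, ← Real.rpow_mul (by linarith)]
                norm_num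
        have hD0' : (0 : ℝ) < D := by exact_mod_cast hD0
        gcongr
      · have h5 : hd e δ D m = 0 := by unfold hd; rw [if_neg h4]
        rw [h5]; simp
    calc ∑ m ∈ Icc 1 (D ^ 2), |hd e δ D m| * (m : ℝ) ^ (-σ)
        ≤ ∑ m ∈ Icc 1 (D ^ 2), |hd e δ D m| * (K / D) := Finset.sum_le_sum h3
      _ = (∑ m ∈ Icc 1 (D ^ 2), |hd e δ D m|) * (K / D) := by rw [Finset.sum_mul]
      _ ≤ (D.divisors.card : ℝ) ^ 2 * (K / D) := by gcongr
  -- pairs
  have hpair : ∑ d₁ ∈ (Icc 1 Z).filter Squarefree, ∑ d₂ ∈ (Icc 1 Z).filter Squarefree,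
      ∑ m ∈ Icc 1 ((Nat.lcm d₁ d₂) ^ 2), |hd e δ (Nat.lcm d₁ d₂) m| * (m : ℝ) ^ (-σ) ≤
      ∑ p ∈ (Icc 1 Z).filter Squarefree ×ˢ (Icc 1 Z).filter Squarefree,
        ((Nat.lcm p.1 p.2).divisors.card : ℝ) ^ 2 * (K / (Nat.lcm p.1 p.2 : ℕ)) := by
    rw [Finset.sum_product]
    refine Finset.sum_le_sum fun a ha => Finset.sum_le_sum fun b hb => ?_
    rw [Finset.mem_filter, Finset.mem_Icc] at ha hb
    refine inner _ (sqf_lcm_LCT ha.2 hb.2) ?_
    calc Nat.lcm a b ≤ a * b := Nat.le_of_dvd (Nat.mul_pos ha.1.1 hb.1.1) (Nat.lcm_dvd_mul a b)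
      _ ≤ Z * Z := Nat.mul_le_mul ha.1.2 hb.1.2
      _ = Z ^ 2 := by ring
  refine hpair.trans ?_
  rw [← Finset.sum_fiberwise_of_maps_to (t := Icc 1 (Z ^ 2))
    (g := fun p : ℕ × ℕ => Nat.lcm p.1 p.2)]
  · have h5 : ∀ D ∈ Icc 1 (Z ^ 2),
        ∑ p ∈ ((Icc 1 Z).filter Squarefree ×ˢ (Icc 1 Z).filter Squarefree).filter
          (fun p => Nat.lcm p.1 p.2 = D),
          ((Nat.lcm p.1 p.2).divisors.card : ℝ) ^ 2 * (K / (Nat.lcm p.1 p.2 : ℕ)) ≤
        K * ((D.divisors.card : ℝ) ^ 4 / D) := by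
      intro D hD
      rw [Finset.mem_Icc] at hD
      have h6 : ∀ p ∈ ((Icc 1 Z).filter Squarefree ×ˢ (Icc 1 Z).filter Squarefree).filter
          (fun p => Nat.lcm p.1 p.2 = D),
          ((Nat.lcm p.1 p.2).divisors.card : ℝ) ^ 2 * (K / (Nat.lcm p.1 p.2 : ℕ)) =
            (D.divisors.card : ℝ) ^ 2 * (K / D) := by
        intro p hp
        rw [Finset.mem_filter] at hp
        rw [hp.2]
      rw [Finset.sum_congr rfl h6, Finset.sum_const, nsmul_eq_mul]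
      have h7 : (((Icc 1 Z).filter Squarefree ×ˢ (Icc 1 Z).filter Squarefree).filter
          (fun p => Nat.lcm p.1 p.2 = D)).card ≤ D.divisors.card * D.divisors.card := by
        rw [← Finset.card_product]
        refine Finset.card_le_card fun p hp => ?_
        rw [Finset.mem_filter] at hp
        rw [Finset.mem_product, Nat.mem_divisors, Nat.mem_divisors]
        refine ⟨⟨?_, by omega⟩, ⟨?_, by omega⟩⟩
        · rw [← hp.2]; exact Nat.dvd_lcm_left _ _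
        · rw [← hp.2]; exact Nat.dvd_lcm_right _ _
      have h8 : ((((Icc 1 Z).filter Squarefree ×ˢ (Icc 1 Z).filter Squarefree).filter
          (fun p => Nat.lcm p.1 p.2 = D)).card : ℝ) ≤ (D.divisors.card : ℝ) ^ 2 := by
        rw [sq]; exact_mod_cast h7
      calc _ ≤ (D.divisors.card : ℝ) ^ 2 * ((D.divisors.card : ℝ) ^ 2 * (K / D)) := by gcongr
        _ = K * ((D.divisors.card : ℝ) ^ 4 / D) := by ring
    refine (Finset.sum_le_sum h5).trans ?_
    rw [← Finset.mul_sum]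
    have h6 : ∑ D ∈ Icc 1 (Z ^ 2), (D.divisors.card : ℝ) ^ 4 / D = T_LCT 4 (Z ^ 2) := rfl
    rw [h6, ← hK]
    have hz0 : 0 ≤ Real.log z := Real.log_nonneg hz
    have hZ0 : (0 : ℝ) < Z := by exact_mod_cast hZ1
    have h7 : 1 + Real.log ((Z ^ 2 : ℕ) : ℝ) ≤ (2 + Real.log z) ^ 2 := by
      have h8 : Real.log ((Z ^ 2 : ℕ) : ℝ) ≤ 2 * Real.log z := by
        rw [Nat.cast_pow, Real.log_pow]
        have := Real.log_le_log hZ0 hZz
        push_cast
        linarith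
      nlinarith
    have h9 : 0 ≤ 1 + Real.log ((Z ^ 2 : ℕ) : ℝ) := by
      have : 0 ≤ Real.log ((Z ^ 2 : ℕ) : ℝ) := Real.log_natCast_nonneg _
      linarith
    calc K * T_LCT 4 (Z ^ 2) ≤ K * (1 + Real.log ((Z ^ 2 : ℕ) : ℝ)) ^ 16 := by
          gcongr
          exact T_four_LCT _
      _ ≤ K * ((2 + Real.log z) ^ 2) ^ 16 := by gcongr
      _ = K * (2 + Real.log z) ^ 32 := by ring
  · intro p hp
    rw [Finset.mem_product, Finset.mem_filter, Finset.mem_filter, Finset.mem_Icc,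
      Finset.mem_Icc] at hp
    rw [Finset.mem_Icc]
    refine ⟨Nat.pos_of_ne_zero (Nat.lcm_ne_zero (by omega) (by omega)), ?_⟩
    calc Nat.lcm p.1 p.2 ≤ p.1 * p.2 :=
          Nat.le_of_dvd (Nat.mul_pos hp.1.1.1 hp.2.1.1) (Nat.lcm_dvd_mul _ _)
      _ ≤ Z * Z := Nat.mul_le_mul hp.1.1.2 hp.2.1.2
      _ = Z ^ 2 := by ring

end Pool.Agent.Helper4.MV
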