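import Pool.Agent.Helper23.MV.StC
import Pool.Agent.Helper29.GK.M_RAM

/-!
# Project MV, module TRF: the moduli `q = R s`
-/

set_option autoImplicit false

namespace Pool.Agent.Helper4.MV

open Pool.Agent.Helper23.MV
open Finset
open Pool.Agent.Helper48.BK (ex ex_int_Par)
open Pool.Agent.Helper23.GK (cR)
open Pool.Agent.Helper29.GK (cR_ex_RAM)

private theorem ex_add_TRF (a b : ℝ) : ex (a + b) = ex a * ex b := by
  unfold ex
  rw [← Complex.exp_add]
  congr 1
  push_cast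
  ring

private theorem ex_nat_TRF (a : ℝ) (k : ℕ) : ex (a + k) = ex a := by
  have h := ex_int_Par (k : ℤ)
  rw [Int.cast_natCast] at h
  rw [ex_add_TRF, h, mul_one]

private theorem ex_nnat_TRF (a : ℝ) (k : ℕ) : ex (-(a + k)) = ex (-a) := by
  have h := ex_int_Par (-(k : ℤ))
  rw [Int.cast_neg, Int.cast_natCast] at h
  rw [neg_add, ex_add_TRF, h, mul_one]

/-- the residues modulo `R s` -/
private theorem crt_TRF (R s : ℕ) (hR : 0 < R) (hs : 0 < s) (h : Nat.Coprime R s) (f : ℕ → ℂ)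
    (hf : ∀ b, f (b % (R * s)) = f b) :
    ∑ b ∈ (range (R * s)).filter (fun b => Nat.Coprime b (R * s)), f b =
      ∑ b₁ ∈ (range R).filter (fun b => Nat.Coprime b R),
        ∑ b₂ ∈ (range s).filter (fun b => Nat.Coprime b s), f (b₁ * s + b₂ * R) := by
  have hm : 0 < R * s := Nat.mul_pos hR hs
  have hinj : Set.InjOn (fun p : ℕ × ℕ => (p.1 * s + p.2 * R) % (R * s))
      (((range R).filter (fun b => Nat.Coprime b R) ×ˢ
        (range s).filter (fun b => Nat.Coprime b s) : Finset (ℕ × ℕ)) : Set (ℕ × ℕ)) := by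
    rintro ⟨a, b⟩ hab ⟨a', b'⟩ hab' he
    rw [Finset.mem_coe, Finset.mem_product, Finset.mem_filter, Finset.mem_filter,
      Finset.mem_range, Finset.mem_range] at hab hab'
    have he' : a * s + b * R ≡ a' * s + b' * R [MOD R * s] := he
    have e1 : a * s ≡ a' * s [MOD R] := by
      have h1 := he'.of_mul_right s
      unfold Nat.ModEq at h1 ⊢
      rwa [Nat.add_mul_mod_self_right, Nat.add_mul_mod_self_right] at h1
    have e2 : b * R ≡ b' * R [MOD s] := by
      have h1 := he'.of_mul_left R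
      unfold Nat.ModEq at h1 ⊢
      rwa [add_comm, Nat.add_mul_mod_self_right, add_comm, Nat.add_mul_mod_self_right] at h1
    have e3 := Nat.ModEq.cancel_right_of_coprime (by exact h) e1
    have e4 := Nat.ModEq.cancel_right_of_coprime (by exact h.symm) e2
    rw [Prod.mk.injEq]
    exact ⟨e3.eq_of_lt_of_lt hab.1.1 hab'.1.1, e4.eq_of_lt_of_lt hab.2.1 hab'.2.1⟩
  have hU : ∀ n : ℕ, ((range n).filter (fun b => Nat.Coprime b n)).card = Nat.totient n := by
    intro n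
    rw [Nat.totient_eq_card_coprime]
    congr 1
    ext b
    rw [Finset.mem_filter, Finset.mem_filter, Nat.coprime_comm]
  have himg : ((range R).filter (fun b => Nat.Coprime b R) ×ˢ
      (range s).filter (fun b => Nat.Coprime b s)).image
        (fun p : ℕ × ℕ => (p.1 * s + p.2 * R) % (R * s)) =
      (range (R * s)).filter (fun b => Nat.Coprime b (R * s)) := by
    refine Finset.eq_of_subset_of_card_le ?_ ?_
    · intro x hx
      rw [Finset.mem_image] at hx
      obtain ⟨⟨a, b⟩, hab, rfl⟩ := hx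
      rw [Finset.mem_product, Finset.mem_filter, Finset.mem_filter] at hab
      rw [Finset.mem_filter, Finset.mem_range]
      refine ⟨Nat.mod_lt _ hm, ?_⟩
      show Nat.gcd ((a * s + b * R) % (R * s)) (R * s) = 1
      rw [(Nat.mod_modEq (a * s + b * R) (R * s)).gcd_eq]
      apply Nat.Coprime.mul_right
      · rw [Nat.coprime_add_mul_right_left]
        exact Nat.Coprime.mul_left hab.1.2 h.symm
      · rw [add_comm, Nat.coprime_add_mul_right_left]
        exact Nat.Coprime.mul_left hab.2.2 h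
    · rw [Finset.card_image_of_injOn hinj, Finset.card_product, hU, hU, hU, Nat.totient_mul h]
  rw [← himg, Finset.sum_image hinj, ← Finset.sum_product']
  exact Finset.sum_congr rfl fun p _ => hf _

private theorem ev_mod_TRF (c : PCh) (m : ℕ) (hm : c.r ∣ m) (b : ℕ) :
    c.ev (b % m) = c.ev b := by
  unfold PCh.ev
  congr 1
  rw [ZMod.natCast_eq_natCast_iff]
  exact (Nat.mod_modEq b m).of_dvd hm

private theorem ev_crt_TRF (c : PCh) (R s : ℕ) (hR : c.r ∣ R) (a b : ℕ) :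
    c.ev (a * s + b * R) = c.ev a * c.ev s := by
  unfold PCh.ev
  rw [← map_mul, ← Nat.cast_mul]
  congr 1
  rw [ZMod.natCast_eq_natCast_iff]
  have h1 : a * s + b * R ≡ a * s [MOD R] := by
    unfold Nat.ModEq
    rw [Nat.add_mul_mod_self_right]
  exact h1.of_dvd hR

private theorem mod_real_TRF (m : ℕ) (hm : 0 < m) (b N : ℕ) :
    (b : ℝ) * N / m = ((b % m : ℕ) : ℝ) * N / m + ((b / m * N : ℕ) : ℝ) := by
  have h1 : ((b % m : ℕ) : ℝ) + (m : ℝ) * ((b / m : ℕ) : ℝ) = (b : ℝ) := by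
    exact_mod_cast Nat.mod_add_div b m
  have hm0 : (m : ℝ) ≠ 0 := by exact_mod_cast hm.ne'
  rw [Nat.cast_mul, ← h1]
  field_simp

/-- `∑ e(b/s) = μ(s)` -/
private theorem mu_TRF (s : ℕ) (hs : 1 ≤ s) :
    ∑ b ∈ (range s).filter (fun b => Nat.Coprime b s), ex ((b : ℝ) / s) =
      ((ArithmeticFunction.moebius s : ℤ) : ℂ) := by
  have h1 := cR_ex_RAM s 1 hs
  have h2 : cR s 1 = ArithmeticFunction.moebius s := by
    unfold cR
    have h3 : s.divisors.filter (fun d : ℕ => (d : ℤ) ∣ 1) = {1} := by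
      ext d
      rw [Finset.mem_filter, Nat.mem_divisors, Finset.mem_singleton]
      constructor
      · rintro ⟨_, h⟩
        have : (d : ℤ) ∣ ((1 : ℕ) : ℤ) := by simpa using h
        exact Nat.dvd_one.1 (Int.natCast_dvd_natCast.1 this)
      · rintro rfl
        exact ⟨⟨one_dvd _, by omega⟩, by simp⟩
    rw [h3, Finset.sum_singleton]
    simp
  rw [h2] at h1
  rw [h1]
  refine Finset.sum_congr rfl fun b _ => ?_
  congr 1
  push_cast
  ring

/-- conjugate Ramanujan sum -/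
private theorem ram_TRF (s N : ℕ) (hs : 1 ≤ s) :
    ∑ b ∈ (range s).filter (fun b => Nat.Coprime b s), ex (-((b : ℝ) * N / s)) =
      ((cR s N : ℤ) : ℂ) := by
  have h1 := cR_ex_RAM s (-(N : ℤ)) hs
  have h2 : cR s (-(N : ℤ)) = cR s N := by
    unfold cR
    congr 1
    ext d
    rw [Finset.mem_filter, Finset.mem_filter, dvd_neg]
  rw [h2] at h1
  rw [h1]
  refine Finset.sum_congr rfl fun b _ => ?_
  congr 1
  push_cast
  ring

private theorem ta_TRF (c : PCh) (R s : ℕ) (hcR : c.r ∣ R) (hR : 0 < R) (hs : 0 < s)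
    (h : Nat.Coprime R s) :
    ta c (R * s) = (starRingEnd ℂ) (c.ev s) * ((ArithmeticFunction.moebius s : ℤ) : ℂ) *
      ta c R := by
  have hm : 0 < R * s := Nat.mul_pos hR hs
  have hR0 : (R : ℝ) ≠ 0 := by exact_mod_cast hR.ne'
  have hs0 : (s : ℝ) ≠ 0 := by exact_mod_cast hs.ne'
  unfold ta
  rw [crt_TRF R s hR hs h (fun b => (starRingEnd ℂ) (c.ev b) * ex ((b : ℝ) / ((R * s : ℕ) : ℝ)))
    (by
      intro b
      rw [ev_mod_TRF c (R * s) (hcR.mul_right s)]
      congr 1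
      have h1 := mod_real_TRF (R * s) hm b 1
      rw [Nat.cast_one, mul_one, mul_one, mul_one] at h1
      rw [h1, ex_nat_TRF])]
  rw [← mu_TRF s hs, Finset.mul_sum]
  refine Finset.sum_congr rfl fun b₁ _ => ?_
  rw [Finset.mul_sum, Finset.sum_mul]
  refine Finset.sum_congr rfl fun b₂ _ => ?_
  rw [ev_crt_TRF c R s hcR, map_mul]
  have h2 : ((b₁ * s + b₂ * R : ℕ) : ℝ) / ((R * s : ℕ) : ℝ) = (b₁ : ℝ) / R + (b₂ : ℝ) / s := by
    push_cast
    field_simp
  rw [h2, ex_add_TRF]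
  ring

private theorem cq_TRF (c₁ c₂ : PCh) (R s N : ℕ) (h₁ : c₁.r ∣ R) (h₂ : c₂.r ∣ R) (hR : 0 < R)
    (hs : 0 < s) (h : Nat.Coprime R s) :
    cq c₁ c₂ (R * s) N = (c₁.ev s * c₂.ev s) * ((cR s N : ℤ) : ℂ) * cq c₁ c₂ R N := by
  have hm : 0 < R * s := Nat.mul_pos hR hs
  have hR0 : (R : ℝ) ≠ 0 := by exact_mod_cast hR.ne'
  have hs0 : (s : ℝ) ≠ 0 := by exact_mod_cast hs.ne'
  unfold cq
  rw [crt_TRF R s hR hs h (fun b => c₁.ev b * c₂.ev b *
    ex (-((b : ℝ) * N / ((R * s : ℕ) : ℝ))))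
    (by
      intro b
      rw [ev_mod_TRF c₁ (R * s) (h₁.mul_right s), ev_mod_TRF c₂ (R * s) (h₂.mul_right s)]
      congr 1
      rw [mod_real_TRF (R * s) hm b N, ex_nnat_TRF])]
  rw [← ram_TRF s N hs, Finset.mul_sum]
  refine Finset.sum_congr rfl fun b₁ _ => ?_
  rw [Finset.mul_sum, Finset.sum_mul]
  refine Finset.sum_congr rfl fun b₂ _ => ?_
  rw [ev_crt_TRF c₁ R s h₁, ev_crt_TRF c₂ R s h₂]
  have h2 : -(((b₁ * s + b₂ * R : ℕ) : ℝ) * N / ((R * s : ℕ) : ℝ)) =
      -((b₁ : ℝ) * N / R) + -((b₂ : ℝ) * N / s) := by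
    push_cast
    field_simp
    ring
  rw [h2, ex_add_TRF]
  ring

private theorem abs_TRF (c : PCh) (R s : ℕ) (hcR : c.r ∣ R) (h : Nat.Coprime R s) :
    (starRingEnd ℂ) (c.ev s) * c.ev s = 1 := by
  have h1 : IsUnit ((s : ℕ) : ZMod c.r) := by
    rw [ZMod.isUnit_iff_coprime]
    exact (Nat.Coprime.coprime_dvd_left hcR h).symm
  have h2 : ‖c.ev s‖ = 1 := by
    unfold PCh.ev
    obtain ⟨u, hu⟩ := h1
    rw [← hu]
    exact DirichletCharacter.unit_norm_eq_one c.χ u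
  rw [mul_comm, Complex.mul_conj, Complex.normSq_eq_norm_sq, h2]
  simp

theorem hTrf : StTav → StTrf := by
  intro hT c₁ c₂ s N hs
  have hR : 0 < Nat.lcm c₁.r c₂.r := Nat.pos_of_ne_zero (Nat.lcm_ne_zero c₁.hr c₂.hr)
  obtain ⟨R, hRd⟩ : ∃ R : ℕ, R = Nat.lcm c₁.r c₂.r := ⟨_, rfl⟩
  rw [← hRd] at hR ⊢
  have h₁ : c₁.r ∣ R := by rw [hRd]; exact Nat.dvd_lcm_left _ _
  have h₂ : c₂.r ∣ R := by rw [hRd]; exact Nat.dvd_lcm_right _ _
  constructor
  · intro hsq hco
    have hco' : Nat.Coprime R s := hco.symm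
    rw [ta_TRF c₁ R s h₁ hR hs hco', ta_TRF c₂ R s h₂ hR hs hco',
      cq_TRF c₁ c₂ R s N h₁ h₂ hR hs hco']
    have e1 := abs_TRF c₁ R s h₁ hco'
    have e2 := abs_TRF c₂ R s h₂ hco'
    have e3 : ((ArithmeticFunction.moebius s : ℤ) : ℂ) * ((ArithmeticFunction.moebius s : ℤ) : ℂ)
        = 1 := by
      have h3 := ArithmeticFunction.moebius_sq_eq_one_of_squarefree hsq
      rw [sq] at h3
      exact_mod_cast h3
    calc _ = ((starRingEnd ℂ) (c₁.ev s) * c₁.ev s) * ((starRingEnd ℂ) (c₂.ev s) * c₂.ev s) *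
          (((ArithmeticFunction.moebius s : ℤ) : ℂ) * ((ArithmeticFunction.moebius s : ℤ) : ℂ)) *
          (ta c₁ R * ta c₂ R * cq c₁ c₂ R N * ((cR s N : ℤ) : ℂ)) := by ring
      _ = _ := by rw [e1, e2, e3]; ring
  · intro hn
    by_contra h0
    have h01 := left_ne_zero_of_mul h0
    have h02 := right_ne_zero_of_mul h0
    have hq : R * s ≠ 0 := (Nat.mul_pos hR hs).ne'
    obtain ⟨a1, a2⟩ := hT c₁ (R * s) hq (h₁.mul_right s) h01
    obtain ⟨b1, b2⟩ := hT c₂ (R * s) hq (h₂.mul_right s) h02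
    have d1 : s ∣ R * s / c₁.r := by
      rw [Nat.mul_div_right_comm h₁]; exact Dvd.intro_left _ rfl
    have d2 : s ∣ R * s / c₂.r := by
      rw [Nat.mul_div_right_comm h₂]; exact Dvd.intro_left _ rfl
    apply hn
    refine ⟨a1.squarefree_of_dvd d1, ?_⟩
    have f1 : Nat.Coprime s c₁.r := Nat.Coprime.coprime_dvd_left d1 a2
    have f2 : Nat.Coprime s c₂.r := Nat.Coprime.coprime_dvd_left d2 b2
    have f3 : Nat.Coprime s (c₁.r * c₂.r) := Nat.Coprime.mul_right f1 f2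
    rw [hRd]
    exact Nat.Coprime.coprime_dvd_right (Nat.lcm_dvd_mul _ _) f3

end Pool.Agent.Helper4.MV
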