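import Pool.Agent.Helper23.MV.StE

/-!
# Project MV, module ZF3: Landau-Page for two real characters
-/

set_option autoImplicit false

namespace Pool.Agent.Helper4.MV

open Pool.Agent.Helper23.MV
open scoped ArithmeticFunction.vonMangoldt

private theorem ord_ZF3 {q : ℕ} [NeZero q] {χ : DirichletCharacter ℂ q} (hχ : χ ≠ 1) (b : ℂ)
    (hb : DirichletCharacter.LFunction χ b = 0) :
    1 ≤ analyticOrderNatAt (DirichletCharacter.LFunction χ) b := by
  have hd := DirichletCharacter.differentiable_LFunction hχ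
  have ha : AnalyticOnNhd ℂ (DirichletCharacter.LFunction χ) Set.univ := fun z _ =>
    hd.analyticAt z
  have h1 : analyticOrderAt (DirichletCharacter.LFunction χ) b ≠ 0 :=
    (hd.analyticAt b).analyticOrderAt_ne_zero.2 hb
  have h2 : analyticOrderAt (DirichletCharacter.LFunction χ) b ≠ ⊤ := by
    intro h3
    rw [analyticOrderAt_eq_top] at h3
    have h4 := ha.eqOn_zero_of_preconnected_of_eventuallyEq_zero isPreconnected_univ
      (Set.mem_univ b) h3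
    exact DirichletCharacter.LFunction_ne_zero_of_one_le_re χ (s := 2) (Or.inl hχ) (by norm_num)
      (h4 (Set.mem_univ (2 : ℂ)))
  rw [Nat.one_le_iff_ne_zero]
  intro h3
  unfold analyticOrderNatAt at h3
  rw [ENat.toNat_eq_zero] at h3
  rcases h3 with h3 | h3
  · exact h1 h3
  · exact h2 h3

/-- the coefficients -/
private noncomputable def V_ZF3 {q : ℕ} (χ : DirichletCharacter ℂ q) : ℕ → ℂ :=
  (fun n : ℕ => χ (n : ZMod q)) * (fun n : ℕ => ((Λ n : ℝ) : ℂ))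

/-- the negative logarithmic derivative -/
private noncomputable def D_ZF3 {q : ℕ} [NeZero q] (χ : DirichletCharacter ℂ q) (s : ℂ) : ℂ :=
  -(deriv (DirichletCharacter.LFunction χ) s / DirichletCharacter.LFunction χ s)

private theorem D_eq_ZF3 {q : ℕ} [NeZero q] (χ : DirichletCharacter ℂ q) {s : ℂ} (hs : 1 < s.re) :
    D_ZF3 χ s = LSeries (V_ZF3 χ) s := by
  unfold D_ZF3 V_ZF3
  rw [DirichletCharacter.LSeries_twist_vonMangoldt_eq χ hs,
    DirichletCharacter.deriv_LFunction_eq_deriv_LSeries χ hs,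
    DirichletCharacter.LFunction_eq_LSeries χ hs, neg_div]

/-- values of a real character -/
private theorem real_ZF3 {q : ℕ} {χ : DirichletCharacter ℂ q} (hχ : χ ^ 2 = 1) (a : ZMod q) :
    ∃ r : ℝ, χ a = r ∧ -1 ≤ r ∧ r ≤ 1 := by
  by_cases ha : IsUnit a
  · have h1 : (χ a) ^ 2 = 1 := by
      rw [← MulChar.pow_apply' χ two_ne_zero, hχ, MulChar.one_apply ha]
    have h2 : (χ a - 1) * (χ a + 1) = 0 := by linear_combination h1
    rcases mul_eq_zero.1 h2 with h | h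
    · exact ⟨1, by rw [sub_eq_zero.1 h]; simp, by norm_num, le_rfl⟩
    · exact ⟨-1, by rw [eq_neg_of_add_eq_zero_left h]; simp, le_rfl, by norm_num⟩
  · exact ⟨0, by rw [MulChar.map_nonunit χ ha]; simp, by norm_num, by norm_num⟩

/-- positivity: `(1 + χ₁)(1 + χ₂) ≥ 0` -/
private theorem pos_ZF3 {q₁ q₂ q : ℕ} [NeZero q₁] [NeZero q₂] [NeZero q]
    {χ₁ : DirichletCharacter ℂ q₁} {χ₂ : DirichletCharacter ℂ q₂} {ψ : DirichletCharacter ℂ q}
    (h₁ : χ₁ ^ 2 = 1) (h₂ : χ₂ ^ 2 = 1)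
    (hψ : ∀ n : ℕ, ψ (n : ZMod q) = χ₁ (n : ZMod q₁) * χ₂ (n : ZMod q₂)) (σ : ℝ) (hσ : 1 < σ) :
    0 ≤ (D_ZF3 (1 : DirichletCharacter ℂ 1) σ).re + (D_ZF3 χ₁ σ).re + (D_ZF3 χ₂ σ).re +
      (D_ZF3 ψ σ).re := by
  have hs : 1 < (σ : ℂ).re := by rw [Complex.ofReal_re]; exact hσ
  rw [D_eq_ZF3 _ hs, D_eq_ZF3 _ hs, D_eq_ZF3 _ hs, D_eq_ZF3 _ hs]
  have s1 : LSeriesSummable (V_ZF3 (1 : DirichletCharacter ℂ 1)) σ :=
    DirichletCharacter.LSeriesSummable_twist_vonMangoldt (1 : DirichletCharacter ℂ 1) hs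
  have s2 : LSeriesSummable (V_ZF3 χ₁) σ :=
    DirichletCharacter.LSeriesSummable_twist_vonMangoldt χ₁ hs
  have s3 : LSeriesSummable (V_ZF3 χ₂) σ :=
    DirichletCharacter.LSeriesSummable_twist_vonMangoldt χ₂ hs
  have s4 : LSeriesSummable (V_ZF3 ψ) σ :=
    DirichletCharacter.LSeriesSummable_twist_vonMangoldt ψ hs
  rw [← Complex.add_re, ← Complex.add_re, ← Complex.add_re, ← LSeries_add s1 s2,
    ← LSeries_add (s1.add s2) s3, ← LSeries_add ((s1.add s2).add s3) s4]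
  have hsum : LSeriesSummable (V_ZF3 (1 : DirichletCharacter ℂ 1) + V_ZF3 χ₁ + V_ZF3 χ₂ +
    V_ZF3 ψ) σ := ((s1.add s2).add s3).add s4
  unfold LSeries
  rw [Complex.re_tsum hsum]
  refine tsum_nonneg fun n => ?_
  by_cases hn : n = 0
  · rw [hn, LSeries.term_zero]; simp
  · rw [LSeries.term_of_ne_zero hn]
    obtain ⟨r₁, e1, l1, u1⟩ := real_ZF3 h₁ (n : ZMod q₁)
    obtain ⟨r₂, e2, l2, u2⟩ := real_ZF3 h₂ (n : ZMod q₂)
    have e0 : (1 : DirichletCharacter ℂ 1) (n : ZMod 1) = 1 :=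
      MulChar.one_apply (isUnit_of_subsingleton _)
    have hn0 : (n : ℂ) ^ (σ : ℂ) = (((n : ℝ) ^ σ : ℝ) : ℂ) := by
      rw [Complex.ofReal_cpow (Nat.cast_nonneg n)]; simp
    have e : (V_ZF3 (1 : DirichletCharacter ℂ 1) + V_ZF3 χ₁ + V_ZF3 χ₂ + V_ZF3 ψ) n /
        (n : ℂ) ^ (σ : ℂ) = (((1 + r₁) * (1 + r₂) * Λ n / (n : ℝ) ^ σ : ℝ) : ℂ) := by
      rw [hn0]
      unfold V_ZF3
      simp only [Pi.add_apply, Pi.mul_apply, e0, hψ, e1, e2]
      push_cast
      ring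
    rw [e, Complex.ofReal_re]
    have := ArithmeticFunction.vonMangoldt_nonneg (n := n)
    have : 0 ≤ 1 + r₁ := by linarith
    have : 0 ≤ 1 + r₂ := by linarith
    positivity

/-- the contribution of a real zero -/
private theorem zero_ZF3 {A κ c X lam0 σ b : ℝ} {q : ℕ} [NeZero q] {χ : DirichletCharacter ℂ q}
    (hχ : χ ≠ 1) (hL : 0 < Real.log X) (hlam : 1 ≤ lam0) (hσ : σ = 1 + 2 * lam0 / Real.log X)
    (hc : 3 * lam0 / Real.log X ≤ c) (hb0 : DirichletCharacter.LFunction χ b = 0)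
    (hb : 1 - lam0 / Real.log X ≤ b)
    (K : ∀ S : Finset ℂ,
      (∀ ρ ∈ S, DirichletCharacter.LFunction χ ρ = 0 ∧ ‖ρ - (σ + (0 : ℝ) * Complex.I)‖ ≤ c) →
      (-(deriv (DirichletCharacter.LFunction χ) (σ + (0 : ℝ) * Complex.I) /
          DirichletCharacter.LFunction χ (σ + (0 : ℝ) * Complex.I))).re ≤
        A * κ * Real.log X - ∑ ρ ∈ S, (analyticOrderNatAt (DirichletCharacter.LFunction χ) ρ : ℝ) *
          (1 / ((σ + (0 : ℝ) * Complex.I : ℂ) - ρ)).re) :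
    (D_ZF3 χ σ).re ≤ A * κ * Real.log X - Real.log X / (3 * lam0) := by
  have hs0 : (σ : ℂ) + ((0 : ℝ) : ℂ) * Complex.I = (σ : ℂ) := by simp
  have hb1 : b < 1 := by
    by_contra h
    exact DirichletCharacter.LFunction_ne_zero_of_one_le_re χ (s := (b : ℂ)) (Or.inl hχ)
      (by rw [Complex.ofReal_re]; exact not_lt.1 h) hb0
  have h1 : σ - b ≤ 3 * lam0 / Real.log X := by
    have : 3 * lam0 / Real.log X = 2 * lam0 / Real.log X + lam0 / Real.log X := by ring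
    rw [this, hσ]; linarith
  have h2 : 0 < σ - b := by
    have : 0 < 2 * lam0 / Real.log X := by positivity
    rw [hσ]; linarith
  have h3 := K {(b : ℂ)} (by
    intro ρ hρ
    rw [Finset.mem_singleton] at hρ
    rw [hρ, hs0]
    refine ⟨hb0, ?_⟩
    rw [← Complex.ofReal_sub, Complex.norm_real, Real.norm_eq_abs, abs_sub_comm, abs_of_pos h2]
    exact h1.trans hc)
  rw [hs0, Finset.sum_singleton] at h3
  have h4 : (1 / ((σ : ℂ) - (b : ℂ))).re = 1 / (σ - b) := by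
    rw [← Complex.ofReal_sub, ← Complex.ofReal_one, ← Complex.ofReal_div, Complex.ofReal_re]
  rw [h4] at h3
  have h5 : (1 : ℝ) ≤ (analyticOrderNatAt (DirichletCharacter.LFunction χ) (b : ℂ) : ℝ) := by
    exact_mod_cast ord_ZF3 hχ (b : ℂ) hb0
  have h6 : Real.log X / (3 * lam0) ≤ 1 / (σ - b) := by
    rw [div_le_div_iff₀ (by positivity) h2]
    have := mul_le_mul_of_nonneg_left h1 hL.le
    have h7 : Real.log X * (3 * lam0 / Real.log X) = 3 * lam0 := by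
      field_simp
    rw [h7] at this
    linarith
  have h7 : 1 / (σ - b) ≤
      (analyticOrderNatAt (DirichletCharacter.LFunction χ) (b : ℂ) : ℝ) * (1 / (σ - b)) :=
    le_mul_of_one_le_left (by positivity) h5
  show (-(deriv (DirichletCharacter.LFunction χ) (σ : ℂ) /
    DirichletCharacter.LFunction χ (σ : ℂ))).re ≤ _
  linarith

theorem hZf3 : StLdr → StLdp → StPrd → StZf3 := by
  rintro ⟨A1, hA1, H1⟩ ⟨A2, hA2, H2⟩ ⟨-, -, hprd⟩ lam0 hlam
  obtain ⟨A, hA1', hA2', hA⟩ : ∃ A : ℝ, A1 ≤ A ∧ A2 ≤ A ∧ 1 ≤ A :=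
    ⟨max A1 A2, le_max_left _ _, le_max_right _ _, hA1.trans (le_max_left _ _)⟩
  obtain ⟨κ, hκ⟩ : ∃ κ : ℝ, κ = 1 / (100 * A * lam0) := ⟨_, rfl⟩
  have hAl : 1 ≤ A * lam0 := by nlinarith
  have hκ0 : 0 < κ := by rw [hκ]; positivity
  have hκ1 : κ ≤ 1 := by
    rw [hκ, div_le_one (by positivity)]
    nlinarith
  obtain ⟨c1, X1, hc1, hc1', hX1, K1⟩ := H1 κ hκ0 hκ1
  obtain ⟨c2, X2, hc2, hc2', hX2, K2⟩ := H2 κ hκ0 hκ1
  obtain ⟨c, hc, hcc1, hcc2⟩ : ∃ c : ℝ, 0 < c ∧ c ≤ c1 ∧ c ≤ c2 :=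
    ⟨min c1 c2, lt_min hc1 hc2, min_le_left _ _, min_le_right _ _⟩
  refine ⟨c / 2, max (max X1 X2) (Real.exp (3 * lam0 / c)), by positivity,
    hX1.trans ((le_max_left _ _).trans (le_max_left _ _)), ?_⟩
  intro X e e' b b' hX he he' hRe hRe' hb hb' hbl hbl'
  by_contra hne
  have hXX1 : X1 ≤ X := ((le_max_left _ _).trans (le_max_left _ _)).trans hX
  have hXX2 : X2 ≤ X := ((le_max_right _ _).trans (le_max_left _ _)).trans hX
  have hX0 : 2 ≤ X := hX1.trans hXX1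
  have hL' : 3 * lam0 / c ≤ Real.log X := by
    rw [Real.le_log_iff_exp_le (by linarith)]
    exact (le_max_right _ _).trans hX
  have hL : 0 < Real.log X := lt_of_lt_of_le (by positivity) hL'
  have h3c : 3 * lam0 / Real.log X ≤ c := by
    rw [div_le_iff₀ hL]
    rw [div_le_iff₀ hc] at hL'
    linarith
  obtain ⟨σ, hσ⟩ : ∃ σ : ℝ, σ = 1 + 2 * lam0 / Real.log X := ⟨_, rfl⟩
  have h2l : 2 * lam0 / Real.log X ≤ 3 * lam0 / Real.log X := by
    gcongr
    norm_num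
  have hσ1 : 1 + 1 / Real.log X ≤ σ := by
    rw [hσ]
    have : 1 / Real.log X ≤ 2 * lam0 / Real.log X := by
      gcongr
      linarith
    linarith
  have hσ2 : σ ≤ 1 + c := by rw [hσ]; linarith
  have hσ0 : 1 < σ := by
    have : 0 < 1 / Real.log X := by positivity
    linarith
  have hX1' : 1 ≤ X := by linarith
  have hq1 : ∀ d : ℝ, c ≤ d → X ^ (c / 2) ≤ X ^ d := fun d hd =>
    Real.rpow_le_rpow_of_exponent_le hX1' (by linarith)
  have ht : |(0 : ℝ)| ≤ X := by rw [abs_zero]; linarith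
  obtain ⟨ψ, hψ1, hψ⟩ := hprd e e' hRe'.1
  have hψne : ψ ≠ 1 := fun h => hne (hψ1.1 h)
  have : NeZero (e.r * e'.r) := ⟨mul_ne_zero e.hr e'.hr⟩
  have hpos := pos_ZF3 hRe.1 hRe'.1 (fun n => hψ n) σ hσ0
  have hs0 : (σ : ℂ) + ((0 : ℝ) : ℂ) * Complex.I = (σ : ℂ) := by simp
  -- the three nonprincipal characters
  have b1 := zero_ZF3 (A := A1) (κ := κ) (c := c1) hRe.2 hL hlam hσ (h3c.trans hcc1) hb hbl
    (fun S hS => K1 X e.r e.χ σ 0 S hXX1 (he.trans (hq1 c1 hcc1)) hσ1 (by linarith) ht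
      (fun h => absurd h hRe.2) hS)
  have b2 := zero_ZF3 (A := A1) (κ := κ) (c := c1) hRe'.2 hL hlam hσ (h3c.trans hcc1) hb' hbl'
    (fun S hS => K1 X e'.r e'.χ σ 0 S hXX1 (he'.trans (hq1 c1 hcc1)) hσ1 (by linarith) ht
      (fun h => absurd h hRe'.2) hS)
  have hqq : ((e.r * e'.r : ℕ) : ℝ) ≤ X ^ c1 := by
    push_cast
    calc (e.r : ℝ) * e'.r ≤ X ^ (c / 2) * X ^ (c / 2) := by gcongr
      _ = X ^ c := by rw [← Real.rpow_add (by linarith)]; congr 1; ring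
      _ ≤ X ^ c1 := Real.rpow_le_rpow_of_exponent_le hX1' hcc1
  have b3 := K1 X (e.r * e'.r) ψ σ 0 ∅ hXX1 hqq hσ1 (by linarith) ht
    (fun h => absurd h hψne) (by simp)
  rw [hs0, Finset.sum_empty, sub_zero] at b3
  have b3' : (D_ZF3 ψ σ).re ≤ A1 * κ * Real.log X := b3
  -- the principal character
  have b0 := K2 X 1 σ 0 hXX2 (by
    rw [Nat.cast_one]; exact Real.one_le_rpow hX1' hc2.le) hσ1 (by linarith) ht
  rw [hs0] at b0
  have h4 : (1 / ((σ : ℂ) - 1)).re = 1 / (σ - 1) := by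
    rw [← Complex.ofReal_one, ← Complex.ofReal_sub, ← Complex.ofReal_div, Complex.ofReal_re]
  rw [h4] at b0
  have b0' : (D_ZF3 (1 : DirichletCharacter ℂ 1) σ).re ≤ 1 / (σ - 1) + A2 * κ * Real.log X := b0
  have h5 : 1 / (σ - 1) = Real.log X / (2 * lam0) := by
    rw [hσ, add_sub_cancel_left, one_div_div]
  rw [h5] at b0'
  have h6 : A1 * κ * Real.log X ≤ A * κ * Real.log X := by gcongr
  have h7 : A2 * κ * Real.log X ≤ A * κ * Real.log X := by gcongr
  have h8 : A * κ * Real.log X = Real.log X / (100 * lam0) := by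
    rw [hκ]; field_simp
  have hl0 : 0 < lam0 := by linarith
  have h9 : 0 < Real.log X / lam0 := by positivity
  have h10 : Real.log X / (2 * lam0) = (1 / 2) * (Real.log X / lam0) := by field_simp
  have h11 : Real.log X / (3 * lam0) = (1 / 3) * (Real.log X / lam0) := by field_simp
  have h12 : Real.log X / (100 * lam0) = (1 / 100) * (Real.log X / lam0) := by field_simp
  rw [h10] at b0'
  rw [h11] at b1 b2
  rw [h8, h12] at h6 h7
  linarith

end Pool.Agent.Helper4.MV
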